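import Pool.Agent.H59.L.S8.W695.KH.Defs

/-! KH-ITER: regularity and gradient bound for the iterates of the scheme. -/

set_option autoImplicit false

namespace Pool.Agent.W505.KH

open MeasureTheory Set Filter Topology
open scoped ENNReal InnerProductSpace
open Pool.Agent.W695.KH

section

variable {κ : Type} [Fintype κ]

lemma ga_int (h : S_gauss) : Integrable (ga (κ := κ)) := by
  obtain ⟨-, -, -, h4, -⟩ := h κ
  simpa using h4 0

lemma ga_one (h : S_gauss) : ∫ w : Eu κ, ga w = 1 := (h κ).2.2.2.2.1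

lemma ga_nonneg (h : S_gauss) (w : Eu κ) : 0 ≤ ga w := ((h κ).1 w).le

lemma Nn_int (h : S_gauss) {v : Eu κ → ℝ} {B : ℝ} (hv : Continuous v) (hB : ∀ x, |v x| ≤ B)
    (σ : ℝ) (x : Eu κ) : Integrable fun w => v (x + σ • w) * ga w := by
  refine (ga_int h).bdd_mul (c := B) ?_ ?_
  · exact (hv.comp (by fun_prop)).aestronglyMeasurable
  · exact Eventually.of_forall fun w => hB _

lemma Nn_bdd (h : S_gauss) {v : Eu κ → ℝ} {B : ℝ} (hv : Continuous v) (hB : ∀ x, |v x| ≤ B)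
    (σ : ℝ) (x : Eu κ) : |Nn σ v x| ≤ B := by
  unfold Nn
  have h1 : ‖∫ w, v (x + σ • w) * ga w‖ ≤ ∫ w : Eu κ, B * ga w := by
    refine norm_integral_le_of_norm_le ((ga_int h).const_mul B) (Eventually.of_forall fun w => ?_)
    rw [norm_mul, Real.norm_eq_abs, Real.norm_eq_abs, abs_of_nonneg (ga_nonneg h w)]
    exact mul_le_mul_of_nonneg_right (hB _) (ga_nonneg h w)
  rw [integral_const_mul, ga_one h, mul_one] at h1
  exact h1

lemma Nn_cont (h : S_gauss) {v : Eu κ → ℝ} {B : ℝ} (hv : Continuous v) (hB : ∀ x, |v x| ≤ B)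
    (σ : ℝ) : Continuous (Nn σ v) := by
  unfold Nn
  refine continuous_of_dominated (bound := fun w => B * ga w) ?_ ?_ ?_ ?_
  · exact fun x => (Nn_int h hv hB σ x).aestronglyMeasurable
  · refine fun x => Eventually.of_forall fun w => ?_
    rw [norm_mul, Real.norm_eq_abs, Real.norm_eq_abs, abs_of_nonneg (ga_nonneg h w)]
    exact mul_le_mul_of_nonneg_right (hB _) (ga_nonneg h w)
  · exact (ga_int h).const_mul B
  · refine Eventually.of_forall fun w => ?_
    exact (hv.comp (by fun_prop)).mul continuous_const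

lemma Nn_mono (h : S_gauss) {v v' : Eu κ → ℝ} {B B' : ℝ} (hv : Continuous v)
    (hB : ∀ x, |v x| ≤ B) (hv' : Continuous v') (hB' : ∀ x, |v' x| ≤ B') (hle : ∀ x, v x ≤ v' x)
    (σ : ℝ) (x : Eu κ) : Nn σ v x ≤ Nn σ v' x := by
  unfold Nn
  exact integral_mono (Nn_int h hv hB σ x) (Nn_int h hv' hB' σ x) fun w =>
    mul_le_mul_of_nonneg_right (hle _) (ga_nonneg h w)

lemma Nn_sub (h : S_gauss) {v v' : Eu κ → ℝ} {B B' : ℝ} (hv : Continuous v)
    (hB : ∀ x, |v x| ≤ B) (hv' : Continuous v') (hB' : ∀ x, |v' x| ≤ B')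
    (σ : ℝ) (x : Eu κ) : Nn σ (fun y => v y - v' y) x = Nn σ v x - Nn σ v' x := by
  unfold Nn
  rw [← integral_sub (Nn_int h hv hB σ x) (Nn_int h hv' hB' σ x)]
  refine integral_congr_ae (Eventually.of_forall fun w => ?_)
  show (v (x + σ • w) - v' (x + σ • w)) * ga w = v (x + σ • w) * ga w - v' (x + σ • w) * ga w
  ring

lemma Nn_smul (c : ℝ) (v : Eu κ → ℝ) (σ : ℝ) (x : Eu κ) :
    Nn σ (fun y => c * v y) x = c * Nn σ v x := by
  unfold Nn
  rw [← integral_const_mul]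
  refine integral_congr_ae (Eventually.of_forall fun w => ?_)
  show c * v (x + σ • w) * ga w = c * (v (x + σ • w) * ga w)
  ring

lemma Sm_lip {v : Eu κ → ℝ} {L M : ℝ} (h : Sm v L M) (x y : Eu κ) :
    |v x - v y| ≤ L * ‖x - y‖ := by
  have h1 := (convex_univ (𝕜 := ℝ) (E := Eu κ)).norm_image_sub_le_of_norm_fderiv_le
    (f := v) (C := L) (fun z _ => h.diff.differentiable one_ne_zero z) (fun z _ => h.grad z)
    (mem_univ y) (mem_univ x)
  exact h1

end

theorem t_iter (h : S_gauss) (hg : S_grad) (hs : S_step) : S_iter := by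
  intro κ _ U b A hP σ L f hσ hσA hL hf
  set T : Eu κ → Eu κ := fun y => y - (σ ^ 2 / 2) • b y with hT
  have hTn : ∀ x y, ‖T x - T y‖ ≤ ‖x - y‖ := by
    intro x y
    exact hP.contr (σ ^ 2 / 2) (by positivity) (by linarith) x y
  have hTc : Continuous T := by
    have : LipschitzWith 1 T := LipschitzWith.of_dist_le_mul fun x y => by
      rw [dist_eq_norm, dist_eq_norm, NNReal.coe_one, one_mul]
      exact hTn x y
    exact this.continuous
  have hM : 0 ≤ L / σ := by positivity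
  -- the step
  have hstep : ∀ v : Eu κ → ℝ, Sm v L (L / σ) → Sm (Kk σ b v) L (L / σ) ∧
      (∀ x, σ ^ 2 * ‖fderiv ℝ (Kk σ b v) x‖ ^ 2 ≤
        Kk σ b (fun y => v y ^ 2) x - Kk σ b v x ^ 2) ∧
      (∀ x, ‖fderiv ℝ (Kk σ b v) x‖ ^ 2 ≤ Kk σ b (fun y => ‖fderiv ℝ v y‖ ^ 2) x) := by
    intro v hv
    obtain ⟨g1, g2, g3, g4, g5⟩ := hg κ σ L (fun y => v (T y)) hσ hL (fun x => hv.bdd _)
      (fun x y => (Sm_lip hv _ _).trans (mul_le_mul_of_nonneg_left (hTn x y) hL))
    exact ⟨⟨g2, g1, g3, g4⟩, g5, hs κ σ L (L / σ) v hσ hL hM hv T hTn⟩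
  -- bounded continuous functions
  have hKc : ∀ v : Eu κ → ℝ, ∀ B : ℝ, Continuous v → (∀ x, |v x| ≤ B) →
      Continuous (Kk σ b v) ∧ ∀ x, |Kk σ b v x| ≤ B := by
    intro v B hv hB
    exact ⟨Nn_cont h (hv.comp hTc) (fun x => hB _) σ, Nn_bdd h (hv.comp hTc) (fun x => hB _) σ⟩
  have hsm : ∀ n : ℕ, Sm ((Kk σ b)^[n] f) L (L / σ) := by
    intro n
    induction n with
    | zero => exact hf
    | succ n ih =>
      rw [Function.iterate_succ_apply']
      exact (hstep _ ih).1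
  have hq : ∀ n : ℕ, Continuous ((Kk σ b)^[n] fun y => f y ^ 2) ∧
      ∀ x, |(Kk σ b)^[n] (fun y => f y ^ 2) x| ≤ 1 := by
    intro n
    induction n with
    | zero =>
      refine ⟨hf.diff.continuous.pow 2, fun x => ?_⟩
      show |f x ^ 2| ≤ 1
      rw [abs_pow]
      exact pow_le_one₀ (abs_nonneg _) (hf.bdd x)
    | succ n ih =>
      rw [Function.iterate_succ_apply']
      exact hKc _ 1 ih.1 ih.2
  have key : ∀ n : ℕ, ∀ x, n * σ ^ 2 * ‖fderiv ℝ ((Kk σ b)^[n] f) x‖ ^ 2 ≤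
      (Kk σ b)^[n] (fun y => f y ^ 2) x - (Kk σ b)^[n] f x ^ 2 := by
    intro n
    induction n with
    | zero => intro x; simp
    | succ n ih =>
      intro x
      set u := (Kk σ b)^[n] f with hu
      set q := (Kk σ b)^[n] (fun y => f y ^ 2) with hqd
      have hus : Sm u L (L / σ) := hsm n
      obtain ⟨s1, s2, s3⟩ := hstep u hus
      rw [Function.iterate_succ_apply', Function.iterate_succ_apply', ← hu, ← hqd]
      have hGc : Continuous fun y => ‖fderiv ℝ u y‖ ^ 2 :=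
        ((hus.diff.continuous_fderiv one_ne_zero).norm).pow 2
      have hGb : ∀ y, |‖fderiv ℝ u y‖ ^ 2| ≤ L ^ 2 := by
        intro y
        rw [abs_of_nonneg (by positivity)]
        exact pow_le_pow_left₀ (norm_nonneg _) (hus.grad y) 2
      have huc : Continuous fun y => u y ^ 2 := hus.diff.continuous.pow 2
      have hub : ∀ y, |u y ^ 2| ≤ 1 := by
        intro y
        rw [abs_pow]
        exact pow_le_one₀ (abs_nonneg _) (hus.bdd y)
      have hnG : ∀ y, |(n * σ ^ 2) * ‖fderiv ℝ u y‖ ^ 2| ≤ (n * σ ^ 2) * L ^ 2 := by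
        intro y
        rw [abs_mul, abs_of_nonneg (by positivity : (0:ℝ) ≤ n * σ ^ 2)]
        exact mul_le_mul_of_nonneg_left (hGb y) (by positivity)
      have hsubb : ∀ y, |q y - u y ^ 2| ≤ 1 + 1 := by
        intro y
        exact (abs_sub _ _).trans (add_le_add ((hq n).2 y) (hub y))
      -- monotonicity
      have m1 : Kk σ b (fun y => (n * σ ^ 2) * ‖fderiv ℝ u y‖ ^ 2) x ≤
          Kk σ b (fun y => q y - u y ^ 2) x := by
        refine Nn_mono h (v := fun y => (n * σ ^ 2) * ‖fderiv ℝ u (T y)‖ ^ 2)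
          (v' := fun y => q (T y) - u (T y) ^ 2) ?_ (fun y => hnG (T y)) ?_
          (fun y => hsubb (T y)) (fun y => ih (T y)) σ x
        · exact continuous_const.mul (hGc.comp hTc)
        · exact ((hq n).1.comp hTc).sub (huc.comp hTc)
      have m2 : Kk σ b (fun y => (n * σ ^ 2) * ‖fderiv ℝ u y‖ ^ 2) x =
          (n * σ ^ 2) * Kk σ b (fun y => ‖fderiv ℝ u y‖ ^ 2) x :=
        Nn_smul (n * σ ^ 2) (fun y => ‖fderiv ℝ u (T y)‖ ^ 2) σ x
      have m3 : Kk σ b (fun y => q y - u y ^ 2) x =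
          Kk σ b q x - Kk σ b (fun y => u y ^ 2) x :=
        Nn_sub h (v := fun y => q (T y)) (v' := fun y => u (T y) ^ 2)
          ((hq n).1.comp hTc) (fun y => (hq n).2 (T y)) (huc.comp hTc) (fun y => hub (T y)) σ x
      have m4 : (n * σ ^ 2) * ‖fderiv ℝ (Kk σ b u) x‖ ^ 2 ≤
          (n * σ ^ 2) * Kk σ b (fun y => ‖fderiv ℝ u y‖ ^ 2) x :=
        mul_le_mul_of_nonneg_left (s3 x) (by positivity)
      have m5 := s2 x
      push_cast
      rw [m2, m3] at m1
      have e : ((n : ℝ) + 1) * σ ^ 2 * ‖fderiv ℝ (Kk σ b u) x‖ ^ 2 =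
          (n * σ ^ 2) * ‖fderiv ℝ (Kk σ b u) x‖ ^ 2 +
            σ ^ 2 * ‖fderiv ℝ (Kk σ b u) x‖ ^ 2 := by ring
      rw [e]
      linarith
  intro n
  refine ⟨hsm n, fun x => (key n x).trans ?_⟩
  have h1 := (abs_le.mp ((hq n).2 x)).2
  have h2 := sq_nonneg ((Kk σ b)^[n] f x)
  linarith

end Pool.Agent.W505.KH
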