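import Pool.Agent.H59.L.S8.W505.KH.Iter

/-! KH-TAYL: `L¹` Taylor estimates for `f exp(-U)`. -/

set_option autoImplicit false

namespace Pool.Agent.W505.KH

open MeasureTheory Set Filter Topology
open scoped ENNReal InnerProductSpace
open Pool.Agent.W695.KH

lemma aux1 {p a : ℝ} (hp : 0 ≤ p) (ha : 0 ≤ a) : p + a ≤ (1 + a) * (1 + p) := by
  nlinarith [mul_nonneg hp ha]

lemma aux2 (p : ℝ) : (1 + p) ^ 2 ≤ 2 * (1 + p ^ 2) := by nlinarith [sq_nonneg (1 - p)]

lemma exp_diff_aux {a c : ℝ} (h : a ≤ c) :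
    |Real.exp a - Real.exp c| ≤ |a - c| * Real.exp c := by
  have h1 : Real.exp a ≤ Real.exp c := Real.exp_le_exp.mpr h
  rw [abs_of_nonpos (by linarith), abs_of_nonpos (by linarith)]
  have h2 : Real.exp a = Real.exp (a - c) * Real.exp c := by
    rw [← Real.exp_add]; congr 1; ring
  have h3 := Real.add_one_le_exp (a - c)
  have h4 := Real.exp_pos c
  rw [h2]
  nlinarith [mul_le_mul_of_nonneg_right h3 h4.le]

lemma exp_diff (a c : ℝ) :
    |Real.exp a - Real.exp c| ≤ |a - c| * Real.exp a + |a - c| * Real.exp c := by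
  rcases le_total a c with h | h
  · have h1 := exp_diff_aux h
    have h2 : 0 ≤ |a - c| * Real.exp a := by positivity
    linarith
  · have h1 := exp_diff_aux h
    rw [abs_sub_comm (Real.exp c), abs_sub_comm c] at h1
    have h2 : 0 ≤ |a - c| * Real.exp c := by positivity
    linarith

section

variable {κ : Type} [Fintype κ] {U : Eu κ → ℝ} {b : Eu κ → Eu κ} {A : ℝ}

lemma U_diff (hP : Pot U b A) (x z : Eu κ) :
    |U x - U z| ≤ ‖x - z‖ * (‖b x‖ + A * ‖x - z‖) := by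
  have h1 := (convex_segment (𝕜 := ℝ) x z).norm_image_sub_le_of_norm_hasFDerivWithin_le
    (f := U) (f' := fun u => innerSL ℝ (b u)) (C := ‖b x‖ + A * ‖x - z‖)
    (fun u _ => (hP.der u).hasFDerivWithinAt) (fun u hu => ?_)
    (right_mem_segment ℝ x z) (left_mem_segment ℝ x z)
  · rw [Real.norm_eq_abs] at h1
    linarith
  · rw [innerSL_apply_norm]
    have h2 : ‖u - x‖ ≤ ‖z - x‖ := norm_sub_le_of_mem_segment hu
    have h3 := hP.lip u x
    have h4 : ‖b u‖ ≤ ‖b x‖ + ‖b u - b x‖ := norm_le_norm_add_norm_sub' _ _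
    rw [norm_sub_rev z x] at h2
    have h5 : A * ‖u - x‖ ≤ A * ‖x - z‖ := mul_le_mul_of_nonneg_left h2 hP.pos.le
    linarith

lemma b_diff (hP : Pot U b A) {x z : Eu κ} {t : ℝ} (ht : ‖x - z‖ ≤ t) :
    ‖b x‖ ≤ ‖b z‖ + A * t := by
  have h1 := hP.lip x z
  have h4 : ‖b x‖ ≤ ‖b z‖ + ‖b x - b z‖ := norm_le_norm_add_norm_sub' _ _
  have h5 : A * ‖x - z‖ ≤ A * t := mul_le_mul_of_nonneg_left ht hP.pos.le
  linarith

lemma ediff (hP : Pot U b A) {x z : Eu κ} {t : ℝ} (ht : ‖x - z‖ ≤ t) :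
    |Real.exp (-U x) - Real.exp (-U z)| ≤
      t * (‖b x‖ + A * t) * Real.exp (-U x) + t * (‖b z‖ + A * t) * Real.exp (-U z) := by
  have hA := hP.pos
  have h0 := norm_nonneg (x - z)
  have ht0 : 0 ≤ t := h0.trans ht
  have h1 := exp_diff (-U x) (-U z)
  have e1 : |(-U x) - (-U z)| = |U x - U z| := by
    rw [← abs_neg]; congr 1; ring
  rw [e1] at h1
  have h2 : |U x - U z| ≤ t * (‖b x‖ + A * t) := by
    refine (U_diff hP x z).trans ?_
    gcongr
  have h3 : |U x - U z| ≤ t * (‖b z‖ + A * t) := by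
    have := U_diff hP z x
    rw [abs_sub_comm, norm_sub_rev] at this
    refine this.trans ?_
    gcongr
  refine h1.trans (add_le_add ?_ ?_)
  · exact mul_le_mul_of_nonneg_right h2 (Real.exp_pos _).le
  · exact mul_le_mul_of_nonneg_right h3 (Real.exp_pos _).le

/-- the dominating density -/
noncomputable def Psi (U : Eu κ → ℝ) (b : Eu κ → Eu κ) (x : Eu κ) : ℝ :=
  (1 + ‖b x‖ ^ 2) * Real.exp (-U x)

lemma Psi_nonneg (x : Eu κ) : 0 ≤ Psi U b x := by unfold Psi; positivity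

lemma Psi_ge (x : Eu κ) : (1 + ‖b x‖) ^ 2 * Real.exp (-U x) ≤ 2 * Psi U b x := by
  unfold Psi
  have h1 := mul_le_mul_of_nonneg_right (aux2 ‖b x‖) (Real.exp_pos (-U x)).le
  linarith

lemma b_cont (hP : Pot U b A) : Continuous b := by
  have : LipschitzWith ⟨A, hP.pos.le⟩ b := LipschitzWith.of_dist_le_mul fun x y => by
    rw [dist_eq_norm, dist_eq_norm]
    exact hP.lip x y
  exact this.continuous

lemma U_cont (hP : Pot U b A) : Continuous U :=
  continuous_iff_continuousAt.mpr fun x => (hP.der x).continuousAt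

lemma Psi_cont (hP : Pot U b A) : Continuous (Psi U b) := by
  have h1 := b_cont hP
  have h2 := U_cont hP
  unfold Psi
  fun_prop

/-- estimate (1), pointwise -/
lemma est1 (hP : Pot U b A) {f : Eu κ → ℝ} {L M H : ℝ} (hf : Sm f L M) (hL : 0 ≤ L)
    (hH : 1 + A + L + |M| ≤ H) (x w : Eu κ) :
    |f (x - w) * Real.exp (-U (x - w)) - f x * Real.exp (-U x)| * (1 + ‖b x‖) ≤
      2 * H ^ 2 * ‖w‖ * (1 + ‖w‖) ^ 2 * (Psi U b x + Psi U b (x - w)) := by
  have hA := hP.pos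
  have hM := abs_nonneg M
  set t := ‖w‖ with ht
  have ht0 : 0 ≤ t := norm_nonneg w
  set z := x - w with hz
  have hxz : ‖x - z‖ ≤ t := by rw [hz]; simp [ht]
  have hzx : ‖z - x‖ ≤ t := by rw [norm_sub_rev]; exact hxz
  have hH0 : 0 ≤ H := by linarith
  have hH1 : 1 ≤ H := by linarith
  have hp : 0 ≤ ‖b x‖ := norm_nonneg _
  have hq : 0 ≤ ‖b z‖ := norm_nonneg _
  have hpq : ‖b x‖ ≤ ‖b z‖ + A * t := b_diff hP hxz
  have hex := Real.exp_pos (-U x)
  have hez := Real.exp_pos (-U z)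
  have e1 : |f z * Real.exp (-U z) - f x * Real.exp (-U x)| ≤
      L * t * Real.exp (-U z) + (t * (‖b x‖ + A * t) * Real.exp (-U x) +
        t * (‖b z‖ + A * t) * Real.exp (-U z)) := by
    have d : f z * Real.exp (-U z) - f x * Real.exp (-U x) =
        (f z - f x) * Real.exp (-U z) - f x * (Real.exp (-U x) - Real.exp (-U z)) := by ring
    rw [d]
    refine (abs_sub _ _).trans (add_le_add ?_ ?_)
    · rw [abs_mul, abs_of_pos hez]
      refine mul_le_mul_of_nonneg_right ((Sm_lip hf z x).trans ?_) hez.le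
      exact mul_le_mul_of_nonneg_left hzx hL
    · rw [abs_mul]
      calc |f x| * |Real.exp (-U x) - Real.exp (-U z)| ≤
          1 * |Real.exp (-U x) - Real.exp (-U z)| :=
            mul_le_mul_of_nonneg_right (hf.bdd x) (abs_nonneg _)
        _ ≤ _ := by rw [one_mul]; exact ediff hP hxz
  have hAt : 0 ≤ A * t := by positivity
  have g1 : 1 + A * t ≤ H * (1 + t) := by nlinarith [mul_nonneg (by linarith : 0 ≤ H - A) ht0]
  have g2 : 1 + L + A * t ≤ H * (1 + t) := by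
    nlinarith [mul_nonneg (by linarith : 0 ≤ H - A) ht0]
  have hHt : 0 ≤ H * (1 + t) := by positivity
  -- x-part
  have p1 : (‖b x‖ + A * t) * (1 + ‖b x‖) ≤ (H * (1 + t)) ^ 2 * (1 + ‖b x‖) ^ 2 := by
    have q1 : ‖b x‖ + A * t ≤ (H * (1 + t)) * (1 + ‖b x‖) :=
      (aux1 hp hAt).trans (mul_le_mul_of_nonneg_right g1 (by positivity))
    have q2 : 1 ≤ H * (1 + t) := by nlinarith
    calc (‖b x‖ + A * t) * (1 + ‖b x‖) ≤ (H * (1 + t)) * (1 + ‖b x‖) * (1 + ‖b x‖) :=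
          mul_le_mul_of_nonneg_right q1 (by positivity)
      _ = 1 * ((H * (1 + t)) * (1 + ‖b x‖) ^ 2) := by ring
      _ ≤ (H * (1 + t)) * ((H * (1 + t)) * (1 + ‖b x‖) ^ 2) :=
          mul_le_mul_of_nonneg_right q2 (by positivity)
      _ = _ := by ring
  -- z-part
  have p2 : (L + ‖b z‖ + A * t) * (1 + ‖b x‖) ≤ (H * (1 + t)) ^ 2 * (1 + ‖b z‖) ^ 2 := by
    have q1 : L + ‖b z‖ + A * t ≤ (H * (1 + t)) * (1 + ‖b z‖) := by
      have := (aux1 hq (by positivity : 0 ≤ L + A * t)).trans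
        (mul_le_mul_of_nonneg_right (by linarith : 1 + (L + A * t) ≤ H * (1 + t))
          (by positivity : 0 ≤ 1 + ‖b z‖))
      linarith
    have q2 : 1 + ‖b x‖ ≤ (H * (1 + t)) * (1 + ‖b z‖) := by
      have h1 : 1 + ‖b x‖ ≤ (1 + A * t) * (1 + ‖b z‖) := by nlinarith [mul_nonneg hAt hq]
      exact h1.trans (mul_le_mul_of_nonneg_right g1 (by positivity))
    calc (L + ‖b z‖ + A * t) * (1 + ‖b x‖) ≤
        ((H * (1 + t)) * (1 + ‖b z‖)) * ((H * (1 + t)) * (1 + ‖b z‖)) :=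
          mul_le_mul q1 q2 (by positivity) (by positivity)
      _ = _ := by ring
  have r1 := Psi_ge (U := U) (b := b) x
  have r2 := Psi_ge (U := U) (b := b) z
  calc |f z * Real.exp (-U z) - f x * Real.exp (-U x)| * (1 + ‖b x‖)
      ≤ (L * t * Real.exp (-U z) + (t * (‖b x‖ + A * t) * Real.exp (-U x) +
        t * (‖b z‖ + A * t) * Real.exp (-U z))) * (1 + ‖b x‖) :=
        mul_le_mul_of_nonneg_right e1 (by positivity)
    _ = t * (((‖b x‖ + A * t) * (1 + ‖b x‖)) * Real.exp (-U x) +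
        ((L + ‖b z‖ + A * t) * (1 + ‖b x‖)) * Real.exp (-U z)) := by ring
    _ ≤ t * (((H * (1 + t)) ^ 2 * (1 + ‖b x‖) ^ 2) * Real.exp (-U x) +
        ((H * (1 + t)) ^ 2 * (1 + ‖b z‖) ^ 2) * Real.exp (-U z)) := by gcongr
    _ = t * (H * (1 + t)) ^ 2 * ((1 + ‖b x‖) ^ 2 * Real.exp (-U x) +
        (1 + ‖b z‖) ^ 2 * Real.exp (-U z)) := by ring
    _ ≤ t * (H * (1 + t)) ^ 2 * (2 * Psi U b x + 2 * Psi U b z) := by gcongr
    _ = _ := by ring

/-- estimate (5), pointwise -/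
lemma est3 (hP : Pot U b A) {f : Eu κ → ℝ} {L M H : ℝ} (hf : Sm f L M) (hL : 0 ≤ L)
    (hH : 1 + A + L + |M| ≤ H) (x w : Eu κ) :
    |f (x - w) * Real.exp (-U (x - w))| * ‖b x‖ ^ 2 ≤
      2 * H ^ 2 * (1 + ‖w‖) ^ 2 * Psi U b (x - w) := by
  have hA := hP.pos
  have hM := abs_nonneg M
  set t := ‖w‖ with ht
  have ht0 : 0 ≤ t := norm_nonneg w
  set z := x - w with hz
  have hxz : ‖x - z‖ ≤ t := by rw [hz]; simp [ht]
  have hH0 : 0 ≤ H := by linarith
  have hp : 0 ≤ ‖b x‖ := norm_nonneg _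
  have hq : 0 ≤ ‖b z‖ := norm_nonneg _
  have hpq : ‖b x‖ ≤ ‖b z‖ + A * t := b_diff hP hxz
  have hez := Real.exp_pos (-U z)
  have hAt : 0 ≤ A * t := by positivity
  have g1 : 1 + A * t ≤ H * (1 + t) := by nlinarith [mul_nonneg (by linarith : 0 ≤ H - A) ht0]
  have q1 : ‖b x‖ ≤ (H * (1 + t)) * (1 + ‖b z‖) :=
    hpq.trans ((aux1 hq hAt).trans (mul_le_mul_of_nonneg_right g1 (by positivity)))
  have r2 := Psi_ge (U := U) (b := b) z
  rw [abs_mul, abs_of_pos hez]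
  calc |f z| * Real.exp (-U z) * ‖b x‖ ^ 2 ≤
      1 * Real.exp (-U z) * ((H * (1 + t)) * (1 + ‖b z‖)) ^ 2 := by
        have := hf.bdd z
        gcongr
    _ = (H * (1 + t)) ^ 2 * ((1 + ‖b z‖) ^ 2 * Real.exp (-U z)) := by ring
    _ ≤ (H * (1 + t)) ^ 2 * (2 * Psi U b z) := by gcongr
    _ = _ := by ring

/-- estimate (3), pointwise -/
lemma est2 (hP : Pot U b A) {f : Eu κ → ℝ} {L M H : ℝ} (hf : Sm f L M) (hL : 0 ≤ L)
    (hH : 1 + A + L + |M| ≤ H) (x z w : Eu κ) (hxz : ‖x - z‖ ≤ ‖w‖) :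
    |dph f U b x w - dph f U b z w| ≤
      6 * H ^ 2 * ‖w‖ ^ 2 * (1 + ‖w‖) ^ 2 * (Psi U b x + Psi U b z) := by
  have hA := hP.pos
  have hM := abs_nonneg M
  set t := ‖w‖ with ht
  have ht0 : 0 ≤ t := norm_nonneg w
  have hH0 : 0 ≤ H := by linarith
  have hH1 : 1 ≤ H := by linarith
  have hp : 0 ≤ ‖b x‖ := norm_nonneg _
  have hq : 0 ≤ ‖b z‖ := norm_nonneg _
  have hpq : ‖b x‖ ≤ ‖b z‖ + A * t := b_diff hP hxz
  have hex := Real.exp_pos (-U x)
  have hez := Real.exp_pos (-U z)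
  have hAt : 0 ≤ A * t := by positivity
  have g1 : 1 + A * t ≤ H * (1 + t) := by nlinarith [mul_nonneg (by linarith : 0 ≤ H - A) ht0]
  have g2 : 1 + L + A * t ≤ H * (1 + t) := by
    nlinarith [mul_nonneg (by linarith : 0 ≤ H - A) ht0]
  have hHt : 0 ≤ H * (1 + t) := by positivity
  have hHt1 : 1 ≤ H * (1 + t) := by nlinarith
  -- the linear form
  have P1 : |fderiv ℝ f x w - f x * ⟪b x, w⟫_ℝ| ≤ (L + ‖b x‖) * t := by
    refine (abs_sub _ _).trans ?_
    have a1 : |fderiv ℝ f x w| ≤ L * t :=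
      ((fderiv ℝ f x).le_opNorm w).trans (mul_le_mul_of_nonneg_right (hf.grad x) ht0)
    have a2 : |f x * ⟪b x, w⟫_ℝ| ≤ 1 * (‖b x‖ * t) := by
      rw [abs_mul]
      exact mul_le_mul (hf.bdd x) (abs_real_inner_le_norm _ _) (abs_nonneg _) zero_le_one
    linarith
  have P2 : |(fderiv ℝ f x w - f x * ⟪b x, w⟫_ℝ) - (fderiv ℝ f z w - f z * ⟪b z, w⟫_ℝ)| ≤
      (|M| + L * ‖b x‖ + A) * t ^ 2 := by
    have d : (fderiv ℝ f x w - f x * ⟪b x, w⟫_ℝ) - (fderiv ℝ f z w - f z * ⟪b z, w⟫_ℝ) =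
        (fderiv ℝ f x - fderiv ℝ f z) w - ((f x - f z) * ⟪b x, w⟫_ℝ +
          f z * ⟪b x - b z, w⟫_ℝ) := by
      rw [_root_.sub_apply, inner_sub_left]
      ring
    rw [d]
    refine (abs_sub _ _).trans ?_
    have a1 : |(fderiv ℝ f x - fderiv ℝ f z) w| ≤ |M| * t * t := by
      refine ((fderiv ℝ f x - fderiv ℝ f z).le_opNorm w).trans
        (mul_le_mul_of_nonneg_right ((hf.lip x z).trans ?_) ht0)
      calc M * ‖x - z‖ ≤ |M| * ‖x - z‖ :=
            mul_le_mul_of_nonneg_right (le_abs_self M) (norm_nonneg _)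
        _ ≤ |M| * t := mul_le_mul_of_nonneg_left hxz hM
    have a2 : |(f x - f z) * ⟪b x, w⟫_ℝ| ≤ (L * t) * (‖b x‖ * t) := by
      rw [abs_mul]
      refine mul_le_mul ((Sm_lip hf x z).trans (mul_le_mul_of_nonneg_left hxz hL))
        (abs_real_inner_le_norm _ _) (abs_nonneg _) (by positivity)
    have a3 : |f z * ⟪b x - b z, w⟫_ℝ| ≤ 1 * ((A * t) * t) := by
      rw [abs_mul]
      refine mul_le_mul (hf.bdd z) ((abs_real_inner_le_norm _ _).trans ?_) (abs_nonneg _)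
        zero_le_one
      exact mul_le_mul_of_nonneg_right
        ((hP.lip x z).trans (mul_le_mul_of_nonneg_left hxz hA.le)) ht0
    have a4 := abs_add_le ((f x - f z) * ⟪b x, w⟫_ℝ) (f z * ⟪b x - b z, w⟫_ℝ)
    have a5 : (|M| + L * ‖b x‖ + A) * t ^ 2 =
        |M| * t * t + ((L * t) * (‖b x‖ * t) + 1 * ((A * t) * t)) := by ring
    rw [a5]
    linarith only [a1, a2, a3, a4]
  have E := ediff hP hxz
  have D : |dph f U b x w - dph f U b z w| ≤
      (t * (‖b x‖ + A * t) * Real.exp (-U x) + t * (‖b z‖ + A * t) * Real.exp (-U z)) *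
        ((L + ‖b x‖) * t) + Real.exp (-U z) * ((|M| + L * ‖b x‖ + A) * t ^ 2) := by
    unfold dph
    have d : (fderiv ℝ f x w - f x * ⟪b x, w⟫_ℝ) * Real.exp (-U x) -
        (fderiv ℝ f z w - f z * ⟪b z, w⟫_ℝ) * Real.exp (-U z) =
        (Real.exp (-U x) - Real.exp (-U z)) * (fderiv ℝ f x w - f x * ⟪b x, w⟫_ℝ) +
        Real.exp (-U z) * ((fderiv ℝ f x w - f x * ⟪b x, w⟫_ℝ) -
          (fderiv ℝ f z w - f z * ⟪b z, w⟫_ℝ)) := by ring
    rw [d]
    refine (abs_add_le _ _).trans (add_le_add ?_ ?_)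
    · rw [abs_mul]
      exact mul_le_mul E P1 (abs_nonneg _) (by positivity)
    · rw [abs_mul, abs_of_pos hez]
      exact mul_le_mul_of_nonneg_left P2 hez.le
  -- the three terms
  set G := H * (1 + t) with hG
  have G2 : G ≤ G ^ 2 := by nlinarith
  have s1 : (‖b x‖ + A * t) * (L + ‖b x‖) ≤ G ^ 2 * (1 + ‖b x‖) ^ 2 := by
    have q1 : ‖b x‖ + A * t ≤ G * (1 + ‖b x‖) :=
      (aux1 hp hAt).trans (mul_le_mul_of_nonneg_right g1 (by positivity))
    have q2 : L + ‖b x‖ ≤ G * (1 + ‖b x‖) := by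
      have := (aux1 hp hL).trans
        (mul_le_mul_of_nonneg_right (by linarith : 1 + L ≤ G) (by positivity : 0 ≤ 1 + ‖b x‖))
      linarith
    calc (‖b x‖ + A * t) * (L + ‖b x‖) ≤ (G * (1 + ‖b x‖)) * (G * (1 + ‖b x‖)) :=
          mul_le_mul q1 q2 (by positivity) (by positivity)
      _ = _ := by ring
  have s2 : (‖b z‖ + A * t) * (L + ‖b x‖) ≤ G ^ 2 * (1 + ‖b z‖) ^ 2 := by
    have q1 : ‖b z‖ + A * t ≤ G * (1 + ‖b z‖) :=
      (aux1 hq hAt).trans (mul_le_mul_of_nonneg_right g1 (by positivity))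
    have q2 : L + ‖b x‖ ≤ G * (1 + ‖b z‖) := by
      have := (aux1 hq (by positivity : 0 ≤ L + A * t)).trans
        (mul_le_mul_of_nonneg_right (by linarith : 1 + (L + A * t) ≤ G)
          (by positivity : 0 ≤ 1 + ‖b z‖))
      linarith
    calc (‖b z‖ + A * t) * (L + ‖b x‖) ≤ (G * (1 + ‖b z‖)) * (G * (1 + ‖b z‖)) :=
          mul_le_mul q1 q2 (by positivity) (by positivity)
      _ = _ := by ring
  have s3 : |M| + L * ‖b x‖ + A ≤ G ^ 2 * (1 + ‖b z‖) ^ 2 := by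
    have q1 : L * ‖b x‖ ≤ L * (‖b z‖ + A * t) := mul_le_mul_of_nonneg_left hpq hL
    have q2 : ‖b z‖ + A * t ≤ G * (1 + ‖b z‖) :=
      (aux1 hq hAt).trans (mul_le_mul_of_nonneg_right g1 (by positivity))
    have q3 : L * (‖b z‖ + A * t) ≤ L * (G * (1 + ‖b z‖)) := mul_le_mul_of_nonneg_left q2 hL
    have q4 : 1 ≤ G * (1 + ‖b z‖) := by nlinarith
    have q5 : |M| + A ≤ (|M| + A) * (G * (1 + ‖b z‖)) :=
      le_mul_of_one_le_right (by positivity) q4
    have q6 : (|M| + A + L) * (G * (1 + ‖b z‖)) ≤ G * (G * (1 + ‖b z‖)) := by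
      refine mul_le_mul_of_nonneg_right ?_ (by positivity)
      have : H ≤ G := by rw [hG]; nlinarith
      linarith
    have q7 : G * (G * (1 + ‖b z‖)) ≤ G ^ 2 * (1 + ‖b z‖) ^ 2 := by
      have h1 : 1 + ‖b z‖ ≤ (1 + ‖b z‖) ^ 2 := by
        rw [pow_two]
        exact le_mul_of_one_le_left (by positivity) (by linarith)
      calc G * (G * (1 + ‖b z‖)) = G ^ 2 * (1 + ‖b z‖) := by ring
        _ ≤ _ := mul_le_mul_of_nonneg_left h1 (by positivity)
    have q8 : L * ‖b x‖ ≤ L * (G * (1 + ‖b z‖)) := q1.trans q3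
    have q9 : (|M| + A) * (G * (1 + ‖b z‖)) + L * (G * (1 + ‖b z‖)) =
        (|M| + A + L) * (G * (1 + ‖b z‖)) := by ring
    have q10 := q6.trans q7
    rw [← q9] at q10
    linarith only [q5, q8, q10]
  have r1 := Psi_ge (U := U) (b := b) x
  have r2 := Psi_ge (U := U) (b := b) z
  have n1 := Psi_nonneg (U := U) (b := b) x
  refine D.trans ?_
  calc (t * (‖b x‖ + A * t) * Real.exp (-U x) + t * (‖b z‖ + A * t) * Real.exp (-U z)) *
        ((L + ‖b x‖) * t) + Real.exp (-U z) * ((|M| + L * ‖b x‖ + A) * t ^ 2)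
      = t ^ 2 * (((‖b x‖ + A * t) * (L + ‖b x‖)) * Real.exp (-U x) +
        ((‖b z‖ + A * t) * (L + ‖b x‖)) * Real.exp (-U z) +
        (|M| + L * ‖b x‖ + A) * Real.exp (-U z)) := by ring
    _ ≤ t ^ 2 * ((G ^ 2 * (1 + ‖b x‖) ^ 2) * Real.exp (-U x) +
        (G ^ 2 * (1 + ‖b z‖) ^ 2) * Real.exp (-U z) +
        (G ^ 2 * (1 + ‖b z‖) ^ 2) * Real.exp (-U z)) := by gcongr
    _ = t ^ 2 * G ^ 2 * ((1 + ‖b x‖) ^ 2 * Real.exp (-U x) +
        2 * ((1 + ‖b z‖) ^ 2 * Real.exp (-U z))) := by ring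
    _ ≤ t ^ 2 * G ^ 2 * (2 * Psi U b x + 2 * (2 * Psi U b z)) := by gcongr
    _ ≤ t ^ 2 * G ^ 2 * (6 * (Psi U b x + Psi U b z)) := by
        have n2 := Psi_nonneg (U := U) (b := b) z
        gcongr
        linarith
    _ = _ := by rw [hG]; ring

lemma phi_cont (hP : Pot U b A) {f : Eu κ → ℝ} {L M : ℝ} (hf : Sm f L M) :
    Continuous fun x => f x * Real.exp (-U x) := by
  have h1 := U_cont hP
  have h2 := hf.diff.continuous
  fun_prop

lemma dph_cont (hP : Pot U b A) {f : Eu κ → ℝ} {L M : ℝ} (hf : Sm f L M) (w : Eu κ) :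
    Continuous fun x => dph f U b x w := by
  have h1 := U_cont hP
  have h2 := hf.diff.continuous
  have h3 := b_cont hP
  have h4 : Continuous fun x => fderiv ℝ f x w :=
    (hf.diff.continuous_fderiv one_ne_zero).clm_apply continuous_const
  have h5 : Continuous fun x => ⟪b x, w⟫_ℝ := h3.inner continuous_const
  unfold dph
  exact (h4.sub (h2.mul h5)).mul (Real.continuous_exp.comp h1.neg)

lemma phi_deriv (hP : Pot U b A) {f : Eu κ → ℝ} {L M : ℝ} (hf : Sm f L M) (x w : Eu κ) (s : ℝ) :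
    HasDerivAt (fun s : ℝ => f (x - s • w) * Real.exp (-U (x - s • w)))
      (-dph f U b (x - s • w) w) s := by
  have h1 : HasDerivAt (fun s : ℝ => x - s • w) (-w) s := by
    have := ((hasDerivAt_id s).smul_const w).const_sub x
    simpa using this
  have h2 : HasDerivAt (fun s : ℝ => f (x - s • w)) (fderiv ℝ f (x - s • w) (-w)) s :=
    (hf.diff.differentiable one_ne_zero (x - s • w)).hasFDerivAt.comp_hasDerivAt s h1
  have h3 : HasDerivAt (fun s : ℝ => U (x - s • w)) (innerSL ℝ (b (x - s • w)) (-w)) s :=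
    (hP.der (x - s • w)).comp_hasDerivAt s h1
  have h4 := h2.mul h3.neg.exp
  refine h4.congr_deriv ?_
  unfold dph
  simp only [map_neg, innerSL_apply_apply, neg_neg, Pi.neg_apply]
  ring

lemma ftc (hP : Pot U b A) {f : Eu κ → ℝ} {L M : ℝ} (hf : Sm f L M) (x w : Eu κ) :
    f (x - w) * Real.exp (-U (x - w)) - f x * Real.exp (-U x) + dph f U b x w =
      ∫ s in (0:ℝ)..1, (dph f U b x w - dph f U b (x - s • w) w) := by
  have hc : Continuous fun s : ℝ => dph f U b (x - s • w) w :=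
    (dph_cont hP hf w).comp (by fun_prop)
  have h1 := intervalIntegral.integral_eq_sub_of_hasDerivAt (a := 0) (b := 1)
    (fun s _ => phi_deriv hP hf x w s) (hc.neg.intervalIntegrable 0 1)
  simp only [one_smul, zero_smul, sub_zero] at h1
  rw [intervalIntegral.integral_neg] at h1
  rw [intervalIntegral.integral_sub (continuous_const.intervalIntegrable 0 1)
    (hc.intervalIntegrable 0 1), intervalIntegral.integral_const, sub_zero, one_smul]
  linarith

end

theorem t_tayl : S_tayl := by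
  intro κ _ U b A hP f L M hf
  have hL : 0 ≤ L := (norm_nonneg _).trans (hf.grad 0)
  have hA := hP.pos
  have hM := abs_nonneg M
  set H : ℝ := 1 + A + L + |M| with hH
  have hH0 : 0 ≤ H := by positivity
  have hΨi : Integrable (Psi U b) := hP.int
  set I : ℝ := ∫ x, Psi U b x with hI
  have hI0 : 0 ≤ I := integral_nonneg fun x => Psi_nonneg x
  have hbc := b_cont hP
  have hφc := phi_cont hP hf
  have hsh : ∀ w : Eu κ, Integrable fun x => Psi U b (x - w) := fun w => hΨi.comp_sub_right w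
  have hshI : ∀ w : Eu κ, ∫ x, Psi U b (x - w) = I := fun w => integral_sub_right_eq_self _ w
  refine ⟨12 * H ^ 2 * I, by positivity, fun w => ?_⟩
  have ht0 : 0 ≤ ‖w‖ := norm_nonneg w
  have hφwc : Continuous fun x => f (x - w) * Real.exp (-U (x - w)) :=
    hφc.comp (by fun_prop : Continuous fun x => x - w)
  -- part 1
  have hsum : Integrable fun x => Psi U b x + Psi U b (x - w) := hΨi.add (hsh w)
  have hsumI : ∫ x, (Psi U b x + Psi U b (x - w)) = 2 * I := by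
    rw [integral_add hΨi (hsh w), hshI w]; ring
  have i1 : Integrable fun x => |f (x - w) * Real.exp (-U (x - w)) - f x * Real.exp (-U x)| *
      (1 + ‖b x‖) := by
    refine (hsum.const_mul (2 * H ^ 2 * ‖w‖ * (1 + ‖w‖) ^ 2)).mono'
      ((hφwc.sub hφc).abs.mul (continuous_const.add hbc.norm)).aestronglyMeasurable
      (Eventually.of_forall fun x => ?_)
    rw [Real.norm_of_nonneg (by positivity)]
    exact est1 hP hf hL le_rfl x w
  have j1 : ∫ x, |f (x - w) * Real.exp (-U (x - w)) - f x * Real.exp (-U x)| * (1 + ‖b x‖) ≤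
      12 * H ^ 2 * I * ‖w‖ * (1 + ‖w‖) ^ 3 := by
    have h1 := integral_mono i1 (hsum.const_mul (2 * H ^ 2 * ‖w‖ * (1 + ‖w‖) ^ 2))
      fun x => est1 hP hf hL le_rfl x w
    rw [integral_const_mul, hsumI] at h1
    refine h1.trans ?_
    have h2 : (1 + ‖w‖) ^ 2 ≤ (1 + ‖w‖) ^ 3 := pow_le_pow_right₀ (by linarith) (by norm_num)
    calc 2 * H ^ 2 * ‖w‖ * (1 + ‖w‖) ^ 2 * (2 * I) = 4 * (H ^ 2 * I * ‖w‖ * (1 + ‖w‖) ^ 2) := by
          ring
      _ ≤ 12 * (H ^ 2 * I * ‖w‖ * (1 + ‖w‖) ^ 3) := by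
          have h3 : H ^ 2 * I * ‖w‖ * (1 + ‖w‖) ^ 2 ≤ H ^ 2 * I * ‖w‖ * (1 + ‖w‖) ^ 3 := by gcongr
          have h4 : 0 ≤ H ^ 2 * I * ‖w‖ * (1 + ‖w‖) ^ 2 := by positivity
          linarith
      _ = _ := by ring
  -- part 3
  have i3 : Integrable fun x => |f (x - w) * Real.exp (-U (x - w))| * ‖b x‖ ^ 2 := by
    refine ((hsh w).const_mul (2 * H ^ 2 * (1 + ‖w‖) ^ 2)).mono'
      (hφwc.abs.mul (hbc.norm.pow 2)).aestronglyMeasurable (Eventually.of_forall fun x => ?_)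
    rw [Real.norm_of_nonneg (by positivity)]
    exact est3 hP hf hL le_rfl x w
  have j3 : ∫ x, |f (x - w) * Real.exp (-U (x - w))| * ‖b x‖ ^ 2 ≤
      12 * H ^ 2 * I * (1 + ‖w‖) ^ 2 := by
    have h1 := integral_mono i3 ((hsh w).const_mul (2 * H ^ 2 * (1 + ‖w‖) ^ 2))
      fun x => est3 hP hf hL le_rfl x w
    rw [integral_const_mul, hshI w] at h1
    refine h1.trans ?_
    have h4 : 0 ≤ H ^ 2 * I * (1 + ‖w‖) ^ 2 := by positivity
    linarith
  -- part 2
  have hprod : Integrable (Function.uncurry fun (x : Eu κ) (s : ℝ) => Psi U b (x - s • w))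
      (volume.prod (volume.restrict (Ioc (0:ℝ) 1))) := by
    have hc : Continuous (Function.uncurry fun (x : Eu κ) (s : ℝ) => Psi U b (x - s • w)) :=
      (Psi_cont hP).comp (by fun_prop : Continuous fun p : Eu κ × ℝ => p.1 - p.2 • w)
    rw [integrable_prod_iff' hc.aestronglyMeasurable]
    refine ⟨Eventually.of_forall fun s => hsh (s • w), ?_⟩
    have h1 : (fun s : ℝ => ∫ x : Eu κ, ‖Function.uncurry (fun (x : Eu κ) (s : ℝ) =>
        Psi U b (x - s • w)) (x, s)‖) = fun _ => I := by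
      funext s
      rw [← hshI (s • w)]
      refine integral_congr_ae (Eventually.of_forall fun x => ?_)
      exact Real.norm_of_nonneg (Psi_nonneg _)
    rw [h1]
    exact integrable_const _
  have hleft : Integrable fun x : Eu κ => ∫ s in Ioc (0:ℝ) 1, Psi U b (x - s • w) :=
    hprod.integral_prod_left
  have hleftI : ∫ x : Eu κ, ∫ s in Ioc (0:ℝ) 1, Psi U b (x - s • w) = I := by
    rw [integral_integral_swap hprod]
    simp_rw [hshI]
    simp
  have hB : Integrable fun x : Eu κ => 6 * H ^ 2 * ‖w‖ ^ 2 * (1 + ‖w‖) ^ 2 *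
      (Psi U b x + ∫ s in Ioc (0:ℝ) 1, Psi U b (x - s • w)) := (hΨi.add hleft).const_mul _
  have hBI : ∫ x : Eu κ, 6 * H ^ 2 * ‖w‖ ^ 2 * (1 + ‖w‖) ^ 2 *
      (Psi U b x + ∫ s in Ioc (0:ℝ) 1, Psi U b (x - s • w)) =
      6 * H ^ 2 * ‖w‖ ^ 2 * (1 + ‖w‖) ^ 2 * (2 * I) := by
    rw [integral_const_mul, integral_add hΨi hleft, hleftI]
    ring
  have hpt : ∀ x : Eu κ, |f (x - w) * Real.exp (-U (x - w)) - f x * Real.exp (-U x) +
      dph f U b x w| ≤ 6 * H ^ 2 * ‖w‖ ^ 2 * (1 + ‖w‖) ^ 2 *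
      (Psi U b x + ∫ s in Ioc (0:ℝ) 1, Psi U b (x - s • w)) := by
    intro x
    rw [ftc hP hf x w]
    have hc : Continuous fun s : ℝ => Psi U b (x - s • w) :=
      (Psi_cont hP).comp (by fun_prop : Continuous fun s : ℝ => x - s • w)
    have h1 := intervalIntegral.norm_integral_le_of_norm_le (a := (0:ℝ)) (b := 1) (μ := volume)
      (f := fun s : ℝ => dph f U b x w - dph f U b (x - s • w) w)
      (g := fun s : ℝ => 6 * H ^ 2 * ‖w‖ ^ 2 * (1 + ‖w‖) ^ 2 *
        (Psi U b x + Psi U b (x - s • w))) zero_le_one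
      (Eventually.of_forall fun s hs => est2 hP hf hL le_rfl x (x - s • w) w (by
        rw [sub_sub_cancel, norm_smul, Real.norm_of_nonneg hs.1.le]
        exact mul_le_of_le_one_left ht0 hs.2))
      ((continuous_const.mul (continuous_const.add hc)).intervalIntegrable 0 1)
    refine h1.trans (le_of_eq ?_)
    rw [intervalIntegral.integral_const_mul, intervalIntegral.integral_add
      (continuous_const.intervalIntegrable 0 1) (hc.intervalIntegrable 0 1),
      intervalIntegral.integral_const, sub_zero, one_smul,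
      intervalIntegral.integral_of_le zero_le_one]
  have i2 : Integrable fun x => |f (x - w) * Real.exp (-U (x - w)) - f x * Real.exp (-U x) +
      dph f U b x w| := by
    refine hB.mono' ((hφwc.sub hφc).add (dph_cont hP hf w)).abs.aestronglyMeasurable
      (Eventually.of_forall fun x => ?_)
    rw [Real.norm_of_nonneg (abs_nonneg _)]
    exact hpt x
  have j2 : ∫ x, |f (x - w) * Real.exp (-U (x - w)) - f x * Real.exp (-U x) +
      dph f U b x w| ≤ 12 * H ^ 2 * I * ‖w‖ ^ 2 * (1 + ‖w‖) ^ 3 := by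
    have h1 := integral_mono i2 hB hpt
    rw [hBI] at h1
    refine h1.trans ?_
    have h2 : (1 + ‖w‖) ^ 2 ≤ (1 + ‖w‖) ^ 3 := pow_le_pow_right₀ (by linarith) (by norm_num)
    calc 6 * H ^ 2 * ‖w‖ ^ 2 * (1 + ‖w‖) ^ 2 * (2 * I) =
          12 * H ^ 2 * I * ‖w‖ ^ 2 * (1 + ‖w‖) ^ 2 := by ring
      _ ≤ _ := by gcongr
  exact ⟨i1, j1, i2, j2, i3, j3⟩

end Pool.Agent.W505.KH
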